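import Mathlib
import Pool.Agent.Q260.MG.Gap

/-! The spectral gap is bounded by a constant times the magneto-spectral height for graphs of
minimum degree at least two. -/

open Pool.Agent.Q260.MG

namespace Pool.Agent.Results.MP_8e2f96_co.GapVsHeight

/-- For every `d ≥ 2` there is a constant `c > 0` with `λ₂(G) ≤ c ν(G)` for all connected graphs
with minimum degree at least `d`; in fact `c = 2560` works for all `d ≥ 2` and also for
disconnected graphs. -/
theorem result :
    (∀ d : ℕ, 2 ≤ d → ∃ c : ℝ, 0 < c ∧ ∀ (V : Type) [Fintype V] [DecidableEq V]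
      (G : SimpleGraph V) [DecidableRel G.Adj], G.Connected → (∀ v, d ≤ G.degree v) →
      lam2 G ≤ c * nu G) ∧
    (∀ (V : Type) [Fintype V] [DecidableEq V] [Nonempty V] (G : SimpleGraph V)
      [DecidableRel G.Adj], (∀ v, 2 ≤ G.degree v) → 0 < nu G ∧ lam2 G ≤ 2560 * nu G) := by
  constructor
  · intro d hd
    refine ⟨2560, by norm_num, ?_⟩
    intro V _ _ G _ hconn hG
    have := hconn.nonempty
    exact lam2_le_nu G (fun v => hd.trans (hG v))
  · intro V _ _ _ G _ hG
    exact ⟨lt_of_lt_of_le (cc_pos _) (run_bound G hG), lam2_le_nu G hG⟩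

end Pool.Agent.Results.MP_8e2f96_co.GapVsHeight
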